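import Pool.Agent.Y150.KS.Small

/-!
# Points of small arithmetic degree for commuting endomorphisms
-/

set_option autoImplicit false

namespace Pool.Agent.Results.MP_f4cece_nt.CommutingEndomorphisms

open Pool.Agent.Y150.KS

/-- Let `Γ` be a commutative monoid of surjective endomorphisms of the projective variety `X` over
a number field and let `θ i` be nef classes, not numerically trivial, with `g^* θ i = χ g i • θ i`
for all `g` in `Γ`, whose sum is big, with augmented base locus `Z`. Suppose that every `θ i` is
expanded by some `g` in `Γ` which contracts all the other classes, or that `Γ` is a group of maximal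
rank. Let `f` be in `Γ` and let `δ` be its first dynamical degree. Then every point `x` outside `Z`
whose arithmetic degree is not `δ` is preperiodic under all elements of `Γ`, and every set of points
with the Northcott property (for example the set of the points of degree at most `d`) contains only
finitely many such points. -/
theorem result (X : DynVar) (Γ : Submonoid X.E) {r : ℕ} (θ : Fin r → X.Pic)
    (χ : X.E → Fin r → ℝ) (Z : Set X.V) (h : X.Eigen Γ θ χ Z)
    (hΓ : StrictlyEnough Γ χ ∨ MaxRank Γ χ) (f : X.E) (hf : f ∈ Γ) :
    ∃ δ : ℝ, X.IsDyn f δ ∧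
      (∀ x, x ∉ Z → ¬ X.IsArith f x δ →
        ∀ g ∈ Γ, (Set.range fun n : ℕ => X.act (g ^ n) x).Finite) ∧
      ∀ P : Set X.V, HasNorthcott X P → {x | x ∈ P ∧ x ∉ Z ∧ ¬ X.IsArith f x δ}.Finite :=
  small_all X Γ θ χ Z h hΓ f hf

end Pool.Agent.Results.MP_f4cece_nt.CommutingEndomorphisms
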